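import Mathlib

/-!
# MP_f2fc76_an: limit chain points of a semi-flow and of its time-`T` map

For every semi-flow `F` on a metric space (only separate continuity is assumed, and no global
attractor is needed), every `T > 0` and all points `x, y`: `y` is a limit chain point of `x` for `F`
if and only if `y` is a limit chain point of `x` for the map `F^T`.
-/

set_option autoImplicit false
open Filter Topology Set Uniformity

namespace Pool.Agent.Results.MP_f2fc76_an.LimitChainTimeT

variable {X : Type*} [MetricSpace X]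

/-- A semi-flow on `X`: `F 0 = id`, `F t ∘ F s = F (t + s)` for `s, t ≥ 0`, every `F t` is continuous
and every orbit map `t ↦ F t x` is continuous on `[0, ∞)`. (Values of `F` at negative times are
irrelevant.) -/
structure IsSemiflow (F : ℝ → X → X) : Prop where
  zero : ∀ x, F 0 x = x
  add : ∀ s t, 0 ≤ s → 0 ≤ t → ∀ x, F t (F s x) = F (t + s) x
  cont : ∀ t, 0 ≤ t → Continuous (F t)
  cont_time : ∀ x, ContinuousOn (fun t => F t x) (Ici 0)

/-- `z : [0, τ] → X` is piecewise continuous: continuous (within `[0, τ]`) outside a finite set and,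
if the switch `L` is on, with one-sided limits at all points. -/
def PiecewiseCont (L : Prop) (z : ℝ → X) (τ : ℝ) : Prop :=
  (∃ S : Set ℝ, S.Finite ∧ ∀ t ∈ Icc 0 τ, t ∉ S → ContinuousWithinAt z (Icc 0 τ) t) ∧
  (L → (∀ t ∈ Ico 0 τ, ∃ l, Tendsto z (𝓝[>] t) (𝓝 l)) ∧
    ∀ t ∈ Ioc 0 τ, ∃ l, Tendsto z (𝓝[<] t) (𝓝 l))

/-- `z` is an `ε`-chain of the semi-flow `F`, from `x` to `y`, of duration `τ`, contained in `K`. -/
structure IsFlowChain (L : Prop) (F : ℝ → X → X) (K : Set X) (ε : ℝ) (x y : X) (τ : ℝ)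
    (z : ℝ → X) : Prop where
  one_le : 1 ≤ τ
  pc : PiecewiseCont L z τ
  start : z 0 = x
  stop : z τ = y
  mem : ∀ t ∈ Icc 0 τ, z t ∈ K
  jump : ∀ t₀ t₁, 0 ≤ t₀ → t₀ < t₁ → t₁ ≤ τ → t₁ - t₀ ≤ 1 →
    dist (F (t₁ - t₀) (z t₀)) (z t₁) < ε

/-- `z 0, …, z k` (`k ≥ 1`) is an `ε`-chain of the map `f`, from `x` to `y`, of duration `k`,
contained in `K`. -/
structure IsMapChain (f : X → X) (K : Set X) (ε : ℝ) (x y : X) (k : ℕ) (z : ℕ → X) : Prop where
  one_le : 1 ≤ k
  start : z 0 = x
  stop : z k = y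
  mem : ∀ i ≤ k, z i ∈ K
  jump : ∀ i < k, dist (f (z i)) (z (i + 1)) < ε

/-- `y` is a limit chain point of `x` for the semi-flow `F`: there are a compact `K` and, for every
`ε > 0`, an `ε`-chain from `x` to `y` in `K` of some duration `τ ε`, with `τ ε → ∞` as `ε → 0`. -/
def IsFlowLimitChainPoint (L : Prop) (F : ℝ → X → X) (x y : X) : Prop :=
  ∃ K : Set X, IsCompact K ∧ ∃ τ : ℝ → ℝ, Tendsto τ (𝓝[>] 0) atTop ∧
    ∀ ε > 0, ∃ z, IsFlowChain L F K ε x y (τ ε) z

/-- `y` is a limit chain point of `x` for the map `f`. -/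
def IsMapLimitChainPoint (f : X → X) (x y : X) : Prop :=
  ∃ K : Set X, IsCompact K ∧ ∃ k : ℝ → ℕ, Tendsto k (𝓝[>] 0) atTop ∧
    ∀ ε > 0, ∃ z, IsMapChain f K ε x y (k ε) z

/-! ### Joint continuity at positive times -/

/-- A separately continuous semi-flow is jointly continuous at positive times. -/
lemma IsSemiflow.continuousAt {F : ℝ → X → X} (hF : IsSemiflow F) {t₀ : ℝ} (ht₀ : 0 < t₀)
    (x₀ : X) : ContinuousAt (fun p : ℝ × X => F p.1 p.2) (t₀, x₀) := by
  -- it suffices to treat sequences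
  rw [ContinuousAt, tendsto_nhds_iff_seq_tendsto]
  intro u hu
  have hu1 : Tendsto (fun n => (u n).1) atTop (𝓝 t₀) := (continuous_fst.tendsto _).comp hu
  have hu2 : Tendsto (fun n => (u n).2) atTop (𝓝 x₀) := (continuous_snd.tendsto _).comp hu
  set s : ℕ → ℝ := fun n => (u n).1 with hs
  set y : ℕ → X := fun n => (u n).2 with hy
  -- extended orbit maps
  have hcx : ∀ x, Continuous (fun t : ℝ => F (max t 0) x) := by
    intro x
    have h : ContinuousOn (fun t => F t x) (Ici 0) := hF.cont_time x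
    exact h.comp_continuous (by fun_prop) (fun t => le_max_right t 0)
  -- Baire sets
  let A : ℕ → ℕ → Set ℝ := fun k n =>
    {t | ∀ m ≥ n, dist (F (max t 0) (y m)) (F (max t 0) x₀) ≤ 1 / (k + 1 : ℝ)}
  have hAcl : ∀ k n, IsClosed (A k n) := by
    intro k n
    have : A k n = ⋂ m, ⋂ (_ : m ≥ n),
        {t | dist (F (max t 0) (y m)) (F (max t 0) x₀) ≤ 1 / (k + 1 : ℝ)} := by
      ext t; simp [A]
    rw [this]
    exact isClosed_iInter fun m => isClosed_iInter fun _ =>
      isClosed_le ((hcx _).dist (hcx _)) continuous_const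
  have hAU : ∀ k, ⋃ n, A k n = univ := by
    intro k
    rw [eq_univ_iff_forall]
    intro t
    have h1 : Tendsto (fun m => dist (F (max t 0) (y m)) (F (max t 0) x₀)) atTop (𝓝 0) := by
      have h2 : Tendsto (fun m => F (max t 0) (y m)) atTop (𝓝 (F (max t 0) x₀)) :=
        ((hF.cont _ (le_max_right t 0)).tendsto _).comp hu2
      exact tendsto_iff_dist_tendsto_zero.1 h2
    have h3 : ∀ᶠ m in atTop, dist (F (max t 0) (y m)) (F (max t 0) x₀) < 1 / (k + 1 : ℝ) :=
      h1.eventually_lt_const (by positivity)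
    obtain ⟨n, hn⟩ := eventually_atTop.1 h3
    exact mem_iUnion.2 ⟨n, fun m hm => (hn m hm).le⟩
  have hdense : ∀ k, Dense (⋃ n, interior (A k n)) := fun k =>
    dense_iUnion_interior_of_closed (hAcl k) (hAU k)
  have hdense2 : Dense (⋂ k, ⋃ n, interior (A k n)) :=
    dense_iInter_of_isOpen (fun k => isOpen_iUnion fun n => isOpen_interior) hdense
  obtain ⟨t₁, ht₁, ht₁mem⟩ := hdense2.exists_mem_open isOpen_Ioo (nonempty_Ioo.2 ht₀)
  -- convergence at `t₁`
  have key : Tendsto (fun n => F (max (s n - t₀ + t₁) 0) (y n)) atTop (𝓝 (F t₁ x₀)) := by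
    rw [Metric.tendsto_atTop]
    intro ε hε
    obtain ⟨k, hk⟩ := exists_nat_one_div_lt (half_pos hε)
    obtain ⟨n, hn⟩ := mem_iUnion.1 (mem_iInter.1 ht₁ k)
    have hr : Tendsto (fun n => s n - t₀ + t₁) atTop (𝓝 t₁) := by
      have : Tendsto (fun n => s n - t₀ + t₁) atTop (𝓝 (t₀ - t₀ + t₁)) :=
        (hu1.sub_const t₀).add_const t₁
      simpa using this
    have h1 : ∀ᶠ m in atTop, s m - t₀ + t₁ ∈ interior (A k n) :=
      hr.eventually (isOpen_interior.mem_nhds hn)
    have h2 : ∀ᶠ m in atTop, dist (F (max (s m - t₀ + t₁) 0) x₀) (F (max t₁ 0) x₀) < ε / 2 := by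
      have := ((hcx x₀).tendsto t₁).comp hr
      exact (Metric.tendsto_nhds.1 this) (ε / 2) (half_pos hε)
    obtain ⟨N, hN⟩ := eventually_atTop.1 (h1.and (h2.and (eventually_ge_atTop n)))
    refine ⟨N, fun m hm => ?_⟩
    obtain ⟨a1, a2, a3⟩ := hN m hm
    have a4 := (interior_subset a1 : s m - t₀ + t₁ ∈ A k n) m a3
    rw [max_eq_left ht₁mem.1.le] at a2
    calc dist (F (max (s m - t₀ + t₁) 0) (y m)) (F t₁ x₀)
        ≤ dist (F (max (s m - t₀ + t₁) 0) (y m)) (F (max (s m - t₀ + t₁) 0) x₀)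
          + dist (F (max (s m - t₀ + t₁) 0) x₀) (F t₁ x₀) := dist_triangle _ _ _
      _ < ε / 2 + ε / 2 := by
          apply add_lt_add (lt_of_le_of_lt a4 hk) a2
      _ = ε := by ring
  have hfin : Tendsto (fun n => F (t₀ - t₁) (F (max (s n - t₀ + t₁) 0) (y n))) atTop
      (𝓝 (F (t₀ - t₁) (F t₁ x₀))) :=
    ((hF.cont _ (by linarith [ht₁mem.2])).tendsto _).comp key
  rw [hF.add t₁ (t₀ - t₁) ht₁mem.1.le (by linarith [ht₁mem.2])] at hfin
  have e : t₀ - t₁ + t₁ = t₀ := by ring
  rw [e] at hfin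
  refine hfin.congr' ?_
  have hev : ∀ᶠ n in atTop, t₀ - t₁ < s n := hu1.eventually_const_lt (by linarith [ht₁mem.1])
  filter_upwards [hev] with n hn
  have h0 : 0 ≤ s n - t₀ + t₁ := by linarith
  rw [max_eq_left h0, hF.add _ _ h0 (by linarith [ht₁mem.2])]
  have e2 : t₀ - t₁ + (s n - t₀ + t₁) = s n := by ring
  rw [e2]
  rfl

/-- uniform continuity at the points of a compact set -/
lemma unif_at {Y Z : Type*} [MetricSpace Y] [MetricSpace Z] {K : Set Y} (hK : IsCompact K)
    {g : Y → Z} (hg : ∀ a ∈ K, ContinuousAt g a) {η : ℝ} (hη : 0 < η) :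
    ∃ δ > 0, ∀ a ∈ K, ∀ b, dist a b < δ → dist (g a) (g b) < η := by
  have h := hK.uniformContinuousAt_of_continuousAt g hg (Metric.dist_mem_uniformity hη)
  obtain ⟨δ, hδ, h2⟩ := Metric.mem_uniformity_dist.1 h
  exact ⟨δ, hδ, fun a ha b hab => h2 hab ha⟩

/-! ### Flow chains give map chains -/

/-- chains follow orbits for bounded times -/
lemma flow_follow {L : Prop} {F : ℝ → X → X} (hF : IsSemiflow F) {K : Set X} (hK : IsCompact K)
    (m : ℕ) : ∀ η > 0, ∃ ε > 0, ∀ x y τ z, IsFlowChain L F K ε x y τ z →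
      ∀ t s : ℝ, 0 ≤ t → 0 ≤ s → s ≤ m → t + s ≤ τ → dist (F s (z t)) (z (t + s)) < η := by
  induction m with
  | zero =>
    intro η hη
    refine ⟨1, one_pos, fun x y τ z hz t s ht hs hsm hts => ?_⟩
    have : s = 0 := le_antisymm (by simpa using hsm) hs
    rw [this, hF.zero, add_zero, dist_self]
    exact hη
  | succ m ih =>
    intro η hη
    obtain ⟨δ, hδ, hδ'⟩ := unif_at hK (g := F 1)
      (fun a _ => (hF.cont 1 zero_le_one).continuousAt) (half_pos hη)
    obtain ⟨ε, hε, h⟩ := ih δ hδ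
    refine ⟨min ε (η / 2), lt_min hε (half_pos hη), fun x y τ z hz t s ht hs hsm hts => ?_⟩
    have hz' : IsFlowChain L F K ε x y τ z :=
      ⟨hz.one_le, hz.pc, hz.start, hz.stop, hz.mem, fun t₀ t₁ h0 h1 h2 h3 =>
        lt_of_lt_of_le (hz.jump t₀ t₁ h0 h1 h2 h3) (min_le_left _ _)⟩
    by_cases hs1 : s ≤ 1
    · rcases hs.eq_or_lt with h0 | h0
      · rw [← h0, hF.zero, add_zero, dist_self]; exact hη
      · have := hz.jump t (t + s) ht (by linarith) hts (by linarith)
        rw [show t + s - t = s by ring] at this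
        have h3 := min_le_right ε (η / 2)
        linarith
    · push Not at hs1
      have hs' : 0 ≤ s - 1 := by linarith
      have a1 := h x y τ z hz' t (s - 1) ht hs' (by push_cast at hsm; linarith) (by linarith)
      have a2 := hz.jump (t + (s - 1)) (t + s) (by linarith) (by linarith) hts (by linarith)
      rw [show t + s - (t + (s - 1)) = 1 by ring] at a2
      have a3 := hδ' (z (t + (s - 1))) (hz.mem _ ⟨by linarith, by linarith⟩) (F (s - 1) (z t))
        (by rw [dist_comm]; exact a1)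
      have a4 : F 1 (F (s - 1) (z t)) = F s (z t) := by
        rw [hF.add _ _ hs' zero_le_one]; congr 1; ring
      rw [a4] at a3
      have h3 := min_le_right ε (η / 2)
      calc dist (F s (z t)) (z (t + s))
          ≤ dist (F s (z t)) (F 1 (z (t + (s - 1)))) + dist (F 1 (z (t + (s - 1)))) (z (t + s)) :=
            dist_triangle _ _ _
        _ < η / 2 + η / 2 := by
            rw [dist_comm (F s (z t))]
            exact add_lt_add a3 (lt_of_lt_of_le a2 h3)
        _ = η := by ring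

lemma flow_to_map {L : Prop} {F : ℝ → X → X} (hF : IsSemiflow F) {T : ℝ} (hT : 0 < T) {x y : X}
    (h : IsFlowLimitChainPoint L F x y) : IsMapLimitChainPoint (F T) x y := by
  obtain ⟨K, hK, τ, hτ, hz⟩ := h
  have main : ∀ η > 0, ∀ M : ℕ, ∃ k : ℕ, M ≤ k ∧ ∃ w, IsMapChain (F T) K η x y k w := by
    intro η hη M
    -- time continuity
    have hcomp : IsCompact (Icc T (2 * T) ×ˢ K) := isCompact_Icc.prod hK
    obtain ⟨δ, hδ, hδ'⟩ := unif_at hcomp (g := fun p : ℝ × X => F p.1 p.2)
      (fun p hp => hF.continuousAt (lt_of_lt_of_le hT hp.1.1) p.2) (half_pos hη)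
    obtain ⟨m, hm⟩ := exists_nat_ge (2 * T)
    obtain ⟨ε, hε, hfol⟩ := flow_follow (L := L) hF hK m (η / 2) (half_pos hη)
    -- choose a long chain
    have hlarge : ∀ᶠ e in 𝓝[>] (0 : ℝ), (M + 1) * T + T * (T / δ + 1) ≤ τ e :=
      hτ.eventually_ge_atTop _
    have hsmall : ∀ᶠ e in 𝓝[>] (0 : ℝ), e < ε :=
      (eventually_lt_nhds hε).filter_mono nhdsWithin_le_nhds
    have hpos : ∀ᶠ e in 𝓝[>] (0 : ℝ), 0 < e := eventually_mem_nhdsWithin
    obtain ⟨e, he1, he2, he3⟩ := (hlarge.and (hsmall.and hpos)).exists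
    obtain ⟨z, hz⟩ := hz e he3
    have hz' : IsFlowChain L F K ε x y (τ e) z :=
      ⟨hz.one_le, hz.pc, hz.start, hz.stop, hz.mem, fun t₀ t₁ h0 h1 h2 h3 =>
        lt_trans (hz.jump t₀ t₁ h0 h1 h2 h3) he2⟩
    have hτ1 : 1 ≤ τ e := hz.one_le
    have hTδ : 0 < T / δ := by positivity
    -- number of steps
    set n : ℕ := ⌊τ e / T⌋₊ with hn
    have hn1 : (n : ℝ) ≤ τ e / T := Nat.floor_le (by positivity)
    have hn2 : τ e / T < n + 1 := Nat.lt_floor_add_one _
    have hn1' : (n : ℝ) * T ≤ τ e := by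
      rwa [le_div_iff₀ hT] at hn1
    have hn2' : τ e < (n + 1) * T := by
      rwa [div_lt_iff₀ hT] at hn2
    have hnbig : (M : ℝ) + T / δ + 1 < n := by
      have : (M + 1) * T + T * (T / δ + 1) < (n + 1) * T := lt_of_le_of_lt he1 hn2'
      have h2 : ((M : ℝ) + 1 + (T / δ + 1)) * T < (n + 1) * T := by nlinarith
      have h3 := lt_of_mul_lt_mul_right h2 hT.le
      linarith
    have hM0 : (0 : ℝ) ≤ M := Nat.cast_nonneg M
    have hnpos : (0 : ℝ) < n := by linarith
    set s : ℝ := τ e / n with hs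
    have hsn : n * s = τ e := by rw [hs]; field_simp
    have hTs : T ≤ s := by
      rw [hs, le_div_iff₀ hnpos]; linarith
    have hsT : s ≤ T + T / n := by
      rw [hs, div_le_iff₀ hnpos]
      have : (T + T / n) * n = (n + 1) * T := by field_simp
      rw [this]; exact hn2'.le
    have hTn : T / n < δ := by
      rw [div_lt_iff₀ hnpos]
      have : T / δ < n := by linarith
      rwa [div_lt_iff₀ hδ, mul_comm] at this
    have hTn1 : T / n ≤ T := by
      apply div_le_self hT.le; linarith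
    refine ⟨n, ?_, fun i => z (i * s), ?_⟩
    · have : (M : ℝ) ≤ n := by linarith
      exact_mod_cast this
    · refine ⟨?_, ?_, ?_, ?_, ?_⟩
      · have : (1 : ℝ) ≤ n := by linarith
        exact_mod_cast this
      · simp [hz.start]
      · change z (n * s) = y
        rw [hsn, hz.stop]
      · intro i hi
        apply hz.mem
        have hi' : (i : ℝ) ≤ n := by exact_mod_cast hi
        have hs0 : 0 < s := by linarith
        refine ⟨by positivity, ?_⟩
        rw [← hsn]
        exact mul_le_mul_of_nonneg_right hi' hs0.le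
      · intro i hi
        have hi' : (i : ℝ) + 1 ≤ n := by exact_mod_cast hi
        have hs0 : 0 < s := by linarith
        have hle : (i : ℝ) * s + s ≤ τ e := by
          rw [← hsn]
          have := mul_le_mul_of_nonneg_right hi' hs0.le
          linarith
        have hi0 : 0 ≤ (i : ℝ) * s := by positivity
        have a1 := hfol x y (τ e) z hz' (i * s) s hi0 hs0.le (by linarith) hle
        have hmemK : z (i * s) ∈ K := hz.mem _ ⟨hi0, by linarith⟩
        have a2 := hδ' (T, z (i * s)) ⟨⟨le_refl T, by linarith⟩, hmemK⟩ (s, z (i * s)) (by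
          rw [Prod.dist_eq]
          simp only [dist_self]
          rw [max_eq_left dist_nonneg, Real.dist_eq, abs_sub_comm, abs_of_nonneg (by linarith)]
          linarith)
        simp only at a2
        have e1 : ((i + 1 : ℕ) : ℝ) * s = i * s + s := by push_cast; ring
        rw [e1]
        calc dist (F T (z (i * s))) (z (i * s + s))
            ≤ dist (F T (z (i * s))) (F s (z (i * s))) + dist (F s (z (i * s))) (z (i * s + s)) :=
              dist_triangle _ _ _
          _ < η / 2 + η / 2 := add_lt_add a2 a1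
          _ = η := by ring
  have main2 : ∀ e : ℝ, ∃ k : ℕ, 1 / e ≤ k ∧ (0 < e → ∃ w, IsMapChain (F T) K e x y k w) := by
    intro e
    obtain ⟨M, hM⟩ := exists_nat_ge (1 / e)
    by_cases he : 0 < e
    · obtain ⟨k, hk, hw⟩ := main e he M
      refine ⟨k, hM.trans (by exact_mod_cast hk), fun _ => hw⟩
    · exact ⟨M, hM, fun h => absurd h he⟩
  choose k hk hw using main2
  refine ⟨K, hK, k, ?_, hw⟩
  have h1 : Tendsto (fun e : ℝ => (1 / e)) (𝓝[>] 0) atTop := by
    simpa using tendsto_inv_nhdsGT_zero (𝕜 := ℝ)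
  have h2 : Tendsto (fun e : ℝ => (k e : ℝ)) (𝓝[>] 0) atTop := tendsto_atTop_mono hk h1
  exact tendsto_natCast_atTop_iff.1 h2

/-! ### Map chains give flow chains -/

lemma map_follow {f : X → X} (hf : Continuous f) {K : Set X} (hK : IsCompact K)
    (m : ℕ) : ∀ η > 0, ∃ ε > 0, ∀ x y k z, IsMapChain f K ε x y k z →
      ∀ i j, j ≤ m → i + j ≤ k → dist (f^[j] (z i)) (z (i + j)) < η := by
  induction m with
  | zero =>
    intro η hη
    refine ⟨1, one_pos, fun x y k z hz i j hj hij => ?_⟩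
    have : j = 0 := by omega
    subst this
    simpa using hη
  | succ m ih =>
    intro η hη
    obtain ⟨δ, hδ, hδ'⟩ := unif_at hK (g := f) (fun a _ => hf.continuousAt) (half_pos hη)
    obtain ⟨ε, hε, h⟩ := ih (min δ η) (lt_min hδ hη)
    refine ⟨min ε (η / 2), lt_min hε (half_pos hη), fun x y k z hz i j hj hij => ?_⟩
    have hz' : IsMapChain f K ε x y k z :=
      ⟨hz.one_le, hz.start, hz.stop, hz.mem, fun i hi =>
        lt_of_lt_of_le (hz.jump i hi) (min_le_left _ _)⟩
    rcases Nat.lt_or_ge m j with hjm | hjm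
    · obtain rfl : j = m + 1 := by omega
      have a1 := h x y k z hz' i m le_rfl (by omega)
      have a2 := hz.jump (i + m) (by omega)
      have a3 := hδ' (z (i + m)) (hz.mem _ (by omega)) (f^[m] (z i)) (by
        rw [dist_comm]; exact lt_of_lt_of_le a1 (min_le_left _ _))
      rw [Function.iterate_succ_apply']
      have h3 := min_le_right ε (η / 2)
      calc dist (f (f^[m] (z i))) (z (i + (m + 1)))
          ≤ dist (f (f^[m] (z i))) (f (z (i + m))) + dist (f (z (i + m))) (z (i + (m + 1))) :=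
            dist_triangle _ _ _
        _ < η / 2 + η / 2 := by
            rw [dist_comm (f (f^[m] (z i)))]
            exact add_lt_add a3 (lt_of_lt_of_le a2 h3)
        _ = η := by ring
    · exact lt_of_lt_of_le (h x y k z hz' i j hjm hij) (min_le_right _ _)

lemma iterate_eq {F : ℝ → X → X} (hF : IsSemiflow F) {T : ℝ} (hT : 0 < T) (j : ℕ) (a : X) :
    (F T)^[j] a = F (j * T) a := by
  induction j with
  | zero => simp [hF.zero]
  | succ j ih =>
    rw [Function.iterate_succ_apply', ih, hF.add _ _ (by positivity) hT.le]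
    congr 1
    push_cast; ring

/-- the chain of the semi-flow built from a chain `w` of the map -/
noncomputable def build (F : ℝ → X → X) (T : ℝ) (k : ℕ) (w : ℕ → X) (t : ℝ) : X :=
  if t < k * T then F (max (t - ((⌊t / T⌋₊ - 1 : ℕ) : ℝ) * T) 0) (w (⌊t / T⌋₊ - 1)) else w k

omit [MetricSpace X] in
lemma build_eq {F : ℝ → X → X} {T : ℝ} (hT : 0 < T) {k : ℕ} {w : ℕ → X} {i : ℕ} (hi : i < k)
    {t : ℝ} (h1 : i * T ≤ t) (h2 : t < (i + 1) * T) :
    build F T k w t = F (max (t - ((i - 1 : ℕ) : ℝ) * T) 0) (w (i - 1)) := by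
  have hfl : ⌊t / T⌋₊ = i := by
    rw [Nat.floor_eq_iff (div_nonneg (le_trans (by positivity) h1) hT.le)]
    rw [le_div_iff₀ hT, div_lt_iff₀ hT]
    exact ⟨h1, h2⟩
  have hlt : t < k * T := by
    refine lt_of_lt_of_le h2 (mul_le_mul_of_nonneg_right ?_ hT.le)
    exact_mod_cast hi
  rw [build, if_pos hlt, hfl]

lemma map_to_flow {L : Prop} {F : ℝ → X → X} (hF : IsSemiflow F) {T : ℝ} (hT : 0 < T) {x y : X}
    (h : IsMapLimitChainPoint (F T) x y) : IsFlowLimitChainPoint L F x y := by
  obtain ⟨K, hK, k, hk, hw⟩ := h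
  have hcx : ∀ x, Continuous (fun t : ℝ => F (max t 0) x) := by
    intro x
    have h : ContinuousOn (fun t => F t x) (Ici 0) := hF.cont_time x
    exact h.comp_continuous (by fun_prop) (fun t => le_max_right t 0)
  -- the compact set
  set K' : Set X := ((fun t => F t x) '' Icc 0 (2 * T)) ∪
    (((fun p : ℝ × X => F p.1 p.2) '' (Icc T (2 * T) ×ˢ K)) ∪ K) with hK'
  have hK'c : IsCompact K' := by
    refine IsCompact.union ?_ (IsCompact.union ?_ hK)
    · exact isCompact_Icc.image_of_continuousOn ((hF.cont_time x).mono fun t ht => ht.1)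
    · refine (isCompact_Icc.prod hK).image_of_continuousOn fun p hp => ?_
      exact (hF.continuousAt (lt_of_lt_of_le hT hp.1.1) p.2).continuousWithinAt
  have main : ∀ η > 0, ∀ M : ℝ, ∃ τ : ℝ, M ≤ τ ∧ ∃ z, IsFlowChain L F K' η x y τ z := by
    intro η hη M
    have hcomp : IsCompact (Icc T (2 * T) ×ˢ K) := isCompact_Icc.prod hK
    obtain ⟨δ, hδ, hδ'⟩ := unif_at hcomp (g := fun p : ℝ × X => F p.1 p.2)
      (fun p hp => hF.continuousAt (lt_of_lt_of_le hT hp.1.1) p.2) hη
    obtain ⟨m, hm⟩ := exists_nat_ge (1 / T + 3)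
    obtain ⟨ε, hε, hfol⟩ := map_follow (hF.cont T hT.le) hK m (min δ η) (lt_min hδ hη)
    have hlarge : ∀ᶠ e in 𝓝[>] (0 : ℝ), max M 1 / T ≤ k e :=
      (tendsto_natCast_atTop_atTop.comp hk).eventually_ge_atTop _
    have hsmall : ∀ᶠ e in 𝓝[>] (0 : ℝ), e < ε :=
      (eventually_lt_nhds hε).filter_mono nhdsWithin_le_nhds
    have hpos : ∀ᶠ e in 𝓝[>] (0 : ℝ), 0 < e := eventually_mem_nhdsWithin
    obtain ⟨e, he1, he2, he3⟩ := (hlarge.and (hsmall.and hpos)).exists
    obtain ⟨w, hw⟩ := hw e he3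
    set n := k e with hn
    have hw' : IsMapChain (F T) K ε x y n w :=
      ⟨hw.one_le, hw.start, hw.stop, hw.mem, fun i hi => lt_trans (hw.jump i hi) he2⟩
    rw [div_le_iff₀ hT] at he1
    have hτM : M ≤ n * T := (le_max_left _ _).trans he1
    have hτ1 : 1 ≤ n * T := (le_max_right _ _).trans he1
    set z : ℝ → X := build F T n w with hz
    -- position of a time
    have hpos : ∀ t, 0 ≤ t → t < n * T → ∃ i < n, (i : ℝ) * T ≤ t ∧ t < (i + 1) * T := by
      intro t ht0 ht1
      refine ⟨⌊t / T⌋₊, ?_, ?_, ?_⟩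
      · rw [Nat.floor_lt (by positivity), div_lt_iff₀ hT]; exact ht1
      · rw [← le_div_iff₀ hT]; exact Nat.floor_le (by positivity)
      · rw [← div_lt_iff₀ hT]; exact Nat.lt_floor_add_one _
    have hpos' : ∀ t, 0 < t → t ≤ n * T → ∃ i < n, (i : ℝ) * T < t ∧ t ≤ (i + 1) * T := by
      intro t ht0 ht1
      obtain ⟨j, hj⟩ : ∃ j, ⌈t / T⌉₊ = j + 1 := by
        have : 0 < ⌈t / T⌉₊ := Nat.ceil_pos.2 (by positivity)
        exact ⟨⌈t / T⌉₊ - 1, by omega⟩
      refine ⟨j, ?_, ?_, ?_⟩
      · have : ⌈t / T⌉₊ ≤ n := Nat.ceil_le.2 (by rw [div_le_iff₀ hT]; exact ht1)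
        omega
      · have := Nat.ceil_lt_add_one (a := t / T) (by positivity)
        rw [hj] at this
        push_cast at this
        rw [← lt_div_iff₀ hT]
        linarith
      · have := Nat.le_ceil (t / T)
        rw [hj] at this
        push_cast at this
        rwa [div_le_iff₀ hT] at this
    have hsub : ∀ {i : ℕ} {t : ℝ}, (i : ℝ) * T ≤ t → 0 ≤ t - ((i - 1 : ℕ) : ℝ) * T := by
      intro i t h
      have : ((i - 1 : ℕ) : ℝ) ≤ i := by exact_mod_cast Nat.sub_le i 1
      have := mul_le_mul_of_nonneg_right this hT.le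
      linarith
    have hzval : ∀ {i : ℕ}, i < n → ∀ {t : ℝ}, (i : ℝ) * T ≤ t → t < (i + 1) * T →
        z t = F (t - ((i - 1 : ℕ) : ℝ) * T) (w (i - 1)) := by
      intro i hi t h1 h2
      rw [hz, build_eq hT hi h1 h2, max_eq_left (hsub h1)]
    have hzend : z (n * T) = w n := by
      rw [hz, build, if_neg (lt_irrefl _)]
    refine ⟨n * T, hτM, z, hτ1, ?_, ?_, ?_, ?_, ?_⟩
    · -- piecewise continuity
      refine ⟨⟨(fun i : ℕ => (i : ℝ) * T) '' Iic n, (finite_Iic n).image _, ?_⟩, fun _ => ⟨?_, ?_⟩⟩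
      · intro t ht hts
        have htn : t < n * T := lt_of_le_of_ne ht.2 fun h => hts ⟨n, by simp, h.symm⟩
        obtain ⟨i, hi, h1, h2⟩ := hpos t ht.1 htn
        have h1' : (i : ℝ) * T < t := lt_of_le_of_ne h1 fun h => hts ⟨i, by simpa using hi.le, h⟩
        have hev : z =ᶠ[𝓝 t] fun s => F (max (s - ((i - 1 : ℕ) : ℝ) * T) 0) (w (i - 1)) := by
          filter_upwards [Ioo_mem_nhds h1' h2] with s hs
          exact build_eq hT hi hs.1.le hs.2
        have hc : Continuous fun s : ℝ => F (max (s - ((i - 1 : ℕ) : ℝ) * T) 0) (w (i - 1)) :=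
          (hcx _).comp (continuous_id.sub continuous_const)
        exact (hc.continuousAt.congr hev.symm).continuousWithinAt
      · intro t ht
        obtain ⟨i, hi, h1, h2⟩ := hpos t ht.1 ht.2
        have hc : Continuous fun s : ℝ => F (max (s - ((i - 1 : ℕ) : ℝ) * T) 0) (w (i - 1)) :=
          (hcx _).comp (continuous_id.sub continuous_const)
        refine ⟨_, Tendsto.congr' ?_ (hc.continuousWithinAt (s := Ioi t) (x := t))⟩
        filter_upwards [Ioo_mem_nhdsGT h2] with s hs
        exact (build_eq hT hi (h1.trans hs.1.le) hs.2).symm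
      · intro t ht
        obtain ⟨i, hi, h1, h2⟩ := hpos' t ht.1 ht.2
        have hc : Continuous fun s : ℝ => F (max (s - ((i - 1 : ℕ) : ℝ) * T) 0) (w (i - 1)) :=
          (hcx _).comp (continuous_id.sub continuous_const)
        refine ⟨_, Tendsto.congr' ?_ (hc.continuousWithinAt (s := Iio t) (x := t))⟩
        filter_upwards [Ioo_mem_nhdsLT h1] with s hs
        exact (build_eq hT hi hs.1.le (lt_of_lt_of_le hs.2 h2)).symm
    · have h0 : z 0 = F (0 - ((0 - 1 : ℕ) : ℝ) * T) (w (0 - 1)) :=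
        hzval (i := 0) (by have := hw.one_le; omega) (by simp) (by simpa using hT)
      rw [h0]
      simp [hF.zero, hw.start]
    · rw [hzend, hw.stop]
    · intro t ht
      rcases ht.2.eq_or_lt with h | h
      · rw [h, hzend]
        exact Or.inr (Or.inr (hw.mem n le_rfl))
      · obtain ⟨i, hi, h1, h2⟩ := hpos t ht.1 h
        rw [hzval hi h1 h2]
        rcases Nat.eq_zero_or_pos i with hi0 | hi0
        · subst hi0
          left
          refine ⟨t, ⟨ht.1, ?_⟩, ?_⟩
          · simp at h2; linarith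
          · simp [hw.start]
        · right; left
          have hc : ((i - 1 : ℕ) : ℝ) = i - 1 := by
            rw [Nat.cast_sub hi0]; simp
          refine ⟨(t - ((i - 1 : ℕ) : ℝ) * T, w (i - 1)), ⟨⟨?_, ?_⟩, hw.mem _ (by omega)⟩, rfl⟩
          · rw [hc]; linarith
          · rw [hc]; linarith
    · intro t₀ t₁ h0 h01 h1n hle
      obtain ⟨i, hi, hi1, hi2⟩ := hpos t₀ h0 (lt_of_lt_of_le h01 h1n)
      rw [hzval hi hi1 hi2]
      rw [hF.add _ _ (hsub hi1) (by linarith)]
      -- `t₁ - t₀ + (t₀ - (i-1) T) = t₁ - (i-1) T`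
      rw [show t₁ - t₀ + (t₀ - ((i - 1 : ℕ) : ℝ) * T) = t₁ - ((i - 1 : ℕ) : ℝ) * T by ring]
      rcases h1n.eq_or_lt with h | h
      · -- end point
        rw [h, hzend]
        have e1 : (n : ℝ) * T - ((i - 1 : ℕ) : ℝ) * T = ((n - (i - 1) : ℕ) : ℝ) * T := by
          rw [Nat.cast_sub (by omega : i - 1 ≤ n)]; ring
        rw [e1, ← iterate_eq hF hT]
        have hbd : n - (i - 1) ≤ m := by
          have h3 : (n : ℝ) * T - (i + 1) * T < 1 := by linarith
          have h4 : (n : ℝ) - (i + 1) < 1 / T := by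
            rw [lt_div_iff₀ hT]; linarith
          have h5 : (n : ℝ) < i + 1 + m - 3 := by linarith
          have h6 : ((n + 3 : ℕ) : ℝ) < ((i + 1 + m : ℕ) : ℝ) := by push_cast; linarith
          have h7 : n + 3 < i + 1 + m := by exact_mod_cast h6
          omega
        have := hfol x y n w hw' (i - 1) (n - (i - 1)) hbd (by omega)
        rw [show i - 1 + (n - (i - 1)) = n by omega] at this
        exact lt_of_lt_of_le this (min_le_right _ _)
      · obtain ⟨j, hj, hj1, hj2⟩ := hpos t₁ (by linarith) h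
        rw [hzval hj hj1 hj2]
        have hij : i ≤ j := by
          by_contra hcon
          push Not at hcon
          have : (j : ℝ) + 1 ≤ i := by exact_mod_cast hcon
          have := mul_le_mul_of_nonneg_right this hT.le
          linarith
        have e1 : t₁ - ((i - 1 : ℕ) : ℝ) * T = (t₁ - ((j - 1 : ℕ) : ℝ) * T) +
            (((j - 1) - (i - 1) : ℕ) : ℝ) * T := by
          rw [Nat.cast_sub (by omega : i - 1 ≤ j - 1)]; ring
        rw [e1, ← hF.add _ _ (by positivity) (hsub hj1), ← iterate_eq hF hT]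
        rcases Nat.eq_zero_or_pos j with hj0 | hj0
        · have hi0 : i = 0 := by omega
          subst hj0; subst hi0
          simpa using hη
        · have hc : ((j - 1 : ℕ) : ℝ) = j - 1 := by
            rw [Nat.cast_sub hj0]; simp
          have hbd : (j - 1) - (i - 1) ≤ m := by
            have h3 : (j : ℝ) * T - (i + 1) * T < 1 := by linarith
            have h4 : (j : ℝ) - (i + 1) < 1 / T := by
              rw [lt_div_iff₀ hT]; linarith
            have h5 : (j : ℝ) < i + 1 + m - 3 := by linarith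
            have h6 : ((j + 3 : ℕ) : ℝ) < ((i + 1 + m : ℕ) : ℝ) := by push_cast; linarith
            have h7 : j + 3 < i + 1 + m := by exact_mod_cast h6
            omega
          have a1 := hfol x y n w hw' (i - 1) ((j - 1) - (i - 1)) hbd (by omega)
          rw [show i - 1 + ((j - 1) - (i - 1)) = j - 1 by omega] at a1
          have a2 := hδ' (t₁ - ((j - 1 : ℕ) : ℝ) * T, w (j - 1))
            ⟨⟨by rw [hc]; linarith, by rw [hc]; linarith⟩, hw.mem _ (by omega)⟩
            (t₁ - ((j - 1 : ℕ) : ℝ) * T, (F T)^[(j - 1) - (i - 1)] (w (i - 1))) (by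
              rw [Prod.dist_eq]
              simp only [dist_self]
              rw [max_eq_right dist_nonneg, dist_comm]
              exact lt_of_lt_of_le a1 (min_le_left _ _))
          rw [dist_comm]
          exact a2
  have main2 : ∀ e : ℝ, ∃ τ : ℝ, 1 / e ≤ τ ∧ (0 < e → ∃ z, IsFlowChain L F K' e x y τ z) := by
    intro e
    by_cases he : 0 < e
    · obtain ⟨τ, hτ, hz⟩ := main e he (1 / e)
      exact ⟨τ, hτ, fun _ => hz⟩
    · exact ⟨1 / e, le_rfl, fun h => absurd h he⟩
  choose τ hτ hz using main2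
  refine ⟨K', hK'c, τ, ?_, hz⟩
  have h1 : Tendsto (fun e : ℝ => (1 / e)) (𝓝[>] 0) atTop := by
    simpa using tendsto_inv_nhdsGT_zero (𝕜 := ℝ)
  exact tendsto_atTop_mono hτ h1

/-- **Limit chain points of a semi-flow and of its time-`T` map.** -/
theorem result {F : ℝ → X → X} (hF : IsSemiflow F) {T : ℝ} (hT : 0 < T) (L : Prop) (x y : X) :
    IsFlowLimitChainPoint L F x y ↔ IsMapLimitChainPoint (F T) x y :=
  ⟨flow_to_map hF hT, map_to_flow hF hT⟩

end Pool.Agent.Results.MP_f2fc76_an.LimitChainTimeT
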